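import Pool.Agent.Helper64.PQ.Goals

set_option autoImplicit false

open Topology Filter Set Metric UpperHalfPlane
open scoped MatrixGroups

namespace Pool.Agent.Helper8.PQ

open Pool.Agent.Helper64.PQ

theorem mk_ne {Γ : Subgroup SL(2, ℝ)} (a b : Γ) :
    mkC b ≠ mkC a ↔ ((a : SL(2, ℝ))⁻¹ * (b : SL(2, ℝ))) 1 0 ≠ 0 := by
  unfold mkC
  refine not_congr ?_
  constructor
  · intro h
    exact Quotient.exact h.symm
  · intro h
    exact (Quotient.sound (show (cuspRel Γ).r a b from h)).symm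

theorem ll (g h : SL(2, ℝ)) : (g⁻¹ * h) 1 0 = g 0 0 * h 1 0 - g 1 0 * h 0 0 := by
  rw [Matrix.SpecialLinearGroup.coe_mul, Matrix.SpecialLinearGroup.coe_inv,
    Matrix.adjugate_fin_two, Matrix.mul_apply, Fin.sum_univ_two]
  simp
  ring

theorem ul (g h : SL(2, ℝ)) : (g⁻¹ * h) 0 0 = g 1 1 * h 0 0 - g 0 1 * h 1 0 := by
  rw [Matrix.SpecialLinearGroup.coe_mul, Matrix.SpecialLinearGroup.coe_inv,
    Matrix.adjugate_fin_two, Matrix.mul_apply, Fin.sum_univ_two]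
  simp
  ring

theorem il (g : SL(2, ℝ)) : g⁻¹ 1 0 = - g 1 0 := by
  rw [Matrix.SpecialLinearGroup.coe_inv, Matrix.adjugate_fin_two]
  simp

theorem iu (g : SL(2, ℝ)) : g⁻¹ 0 0 = g 1 1 := by
  rw [Matrix.SpecialLinearGroup.coe_inv, Matrix.adjugate_fin_two]
  simp

theorem dt (g : SL(2, ℝ)) : g 0 0 * g 1 1 - g 0 1 * g 1 0 = 1 := by
  have := g.det_coe
  rw [Matrix.det_fin_two] at this
  exact this

/-- the difference of two real cusps -/
theorem diff (g h : SL(2, ℝ)) (hg : g 1 0 ≠ 0) (hh : h 1 0 ≠ 0) :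
    |rr h - rr g| = |(g⁻¹ * h) 1 0| / (|g 1 0| * |h 1 0|) := by
  rw [ll, ← abs_mul, ← abs_div]
  unfold rr
  rw [div_sub_div _ _ hh hg, ← abs_neg]
  congr 1
  rw [mul_comm (g 1 0) (h 1 0)]
  field_simp
  ring

/-- the product formula -/
theorem prodf (g h : SL(2, ℝ)) (hg : g 1 0 ≠ 0) (hh : h 1 0 ≠ 0) (hgh : (g⁻¹ * h) 1 0 ≠ 0) :
    |rr h - rr g| * |rr (g⁻¹ * h) - rr g⁻¹| = 1 / (g 1 0) ^ 2 := by
  rw [← abs_mul]
  have h1 := dt g
  have e : (rr h - rr g) * (rr (g⁻¹ * h) - rr g⁻¹) = - (1 / (g 1 0) ^ 2) := by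
    rw [ll] at hgh
    unfold rr
    rw [ll, ul, il, iu]
    have h2 : (g 1 1 * h 0 0 - g 0 1 * h 1 0) / (g 0 0 * h 1 0 - g 1 0 * h 0 0)
        - g 1 1 / (- g 1 0) = h 1 0 / (g 1 0 * (g 0 0 * h 1 0 - g 1 0 * h 0 0)) := by
      rw [div_neg, sub_neg_eq_add, div_add_div _ _ hgh hg,
        mul_comm (g 1 0) (g 0 0 * h 1 0 - g 1 0 * h 0 0)]
      congr 1
      linear_combination h 1 0 * h1
    have h3 : h 0 0 / h 1 0 - g 0 0 / g 1 0
        = - ((g 0 0 * h 1 0 - g 1 0 * h 0 0) / (g 1 0 * h 1 0)) := by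
      field_simp
      ring
    rw [h2, h3]
    field_simp
  rw [e, abs_neg, abs_of_nonneg (by positivity)]

theorem goalB2 (hB1 : GoalB1) : GoalB2 := by
  intro Γ hΓ
  have hB := hB1 Γ hΓ
  have hc1 : ∀ a b : Γ, mkC b ≠ mkC a → 1 ≤ |((a : SL(2, ℝ))⁻¹ * (b : SL(2, ℝ))) 1 0| := by
    intro a b hab
    rw [mk_ne] at hab
    rcases hΓ.c ((a : SL(2, ℝ))⁻¹ * (b : SL(2, ℝ))) (Γ.mul_mem (Γ.inv_mem a.2) b.2) with h | h
    · exact absurd h hab
    · exact h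
  have hgh : ∀ a b c : Γ, ((a : SL(2, ℝ))⁻¹ * (b : SL(2, ℝ)))⁻¹ * ((a : SL(2, ℝ))⁻¹ * c)
      = (b : SL(2, ℝ))⁻¹ * c := by
    intro a b c
    group
  have hgi : ∀ a b : Γ, ((a : SL(2, ℝ))⁻¹ * (b : SL(2, ℝ)))⁻¹ = (b : SL(2, ℝ))⁻¹ * a := by
    intro a b
    group
  -- the product formula for three cusps
  have hpf : ∀ a b c : Γ, mkC b ≠ mkC a → mkC c ≠ mkC a → mkC c ≠ mkC b →
      |rr ((a : SL(2, ℝ))⁻¹ * c) - rr ((a : SL(2, ℝ))⁻¹ * b)|
        * |rr ((b : SL(2, ℝ))⁻¹ * c) - rr ((b : SL(2, ℝ))⁻¹ * a)|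
        = 1 / (((a : SL(2, ℝ))⁻¹ * (b : SL(2, ℝ))) 1 0) ^ 2 := by
    intro a b c hab hac hbc
    rw [mk_ne] at hab hac hbc
    have := prodf _ _ hab hac (by rw [hgh]; exact hbc)
    rw [hgh, hgi] at this
    exact this
  have hdf : ∀ a b c : Γ, mkC b ≠ mkC a → mkC c ≠ mkC a → mkC c ≠ mkC b →
      1 / (|((a : SL(2, ℝ))⁻¹ * (b : SL(2, ℝ))) 1 0| * |((a : SL(2, ℝ))⁻¹ * (c : SL(2, ℝ))) 1 0|)
        ≤ |rr ((a : SL(2, ℝ))⁻¹ * c) - rr ((a : SL(2, ℝ))⁻¹ * b)| := by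
    intro a b c hab hac hbc
    have h1 := hc1 b c hbc
    rw [mk_ne] at hab hac hbc
    rw [diff _ _ hab hac, hgh]
    exact div_le_div_of_nonneg_right h1 (by positivity)
  have hsurj : ∀ x : Cusp Γ, ∃ a : Γ, mkC a = x := fun x => Quotient.exists_rep x
  refine ⟨le_refl _, ?_, ?_, ?_, ?_, ?_⟩
  · intro x y z hy hz
    obtain ⟨a, rfl⟩ := hsurj x
    obtain ⟨b, rfl⟩ := hsurj y
    obtain ⟨c, rfl⟩ := hsurj z
    rw [hB a b c hy hz, hB a c b hz hy, abs_sub_comm]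
  · intro x y hy
    obtain ⟨a, rfl⟩ := hsurj x
    obtain ⟨b, rfl⟩ := hsurj y
    rw [hB a b b hy hy, sub_self, abs_zero, Nat.ceil_zero]
    exact Nat.zero_le _
  · intro x y z w hy hz hw
    obtain ⟨a, rfl⟩ := hsurj x
    obtain ⟨b, rfl⟩ := hsurj y
    obtain ⟨c, rfl⟩ := hsurj z
    obtain ⟨e, rfl⟩ := hsurj w
    rw [hB a b e hy hw, hB a b c hy hz, hB a c e hz hw, Nat.ceil_le]
    push_cast
    have h1 := Nat.le_ceil |rr ((a : SL(2, ℝ))⁻¹ * c) - rr ((a : SL(2, ℝ))⁻¹ * b)|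
    have h2 := Nat.le_ceil |rr ((a : SL(2, ℝ))⁻¹ * e) - rr ((a : SL(2, ℝ))⁻¹ * c)|
    have h3 := abs_sub_le (rr ((a : SL(2, ℝ))⁻¹ * e)) (rr ((a : SL(2, ℝ))⁻¹ * c))
      (rr ((a : SL(2, ℝ))⁻¹ * b))
    linarith
  · intro x y z hxy hyz hxz ht
    obtain ⟨a, rfl⟩ := hsurj x
    obtain ⟨b, rfl⟩ := hsurj y
    obtain ⟨c, rfl⟩ := hsurj z
    rw [hB a b c hxy.symm hxz.symm] at ht
    rw [hB b a c hxy hyz.symm]
    have h1 : 1 < |rr ((a : SL(2, ℝ))⁻¹ * c) - rr ((a : SL(2, ℝ))⁻¹ * b)| := by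
      have := Nat.lt_ceil.1 ht
      exact_mod_cast this
    have h2 := hpf a b c hxy.symm hxz.symm hyz.symm
    have h3 := hc1 a b hxy.symm
    have h4 : 1 / (((a : SL(2, ℝ))⁻¹ * (b : SL(2, ℝ))) 1 0) ^ 2 ≤ 1 := by
      rw [div_le_one (by rw [← sq_abs]; positivity), ← sq_abs]
      nlinarith
    rw [Nat.ceil_le]
    push_cast
    by_contra h5
    rw [not_le] at h5
    nlinarith
  · intro y z
    obtain ⟨a, rfl⟩ := hsurj y
    obtain ⟨b, rfl⟩ := hsurj z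
    by_cases hab : mkC b = mkC a
    · refine Set.Finite.subset Set.finite_empty ?_
      rintro x ⟨hx1, hx2, hx3⟩
      obtain ⟨c, rfl⟩ := hsurj x
      rw [hab, hB c a a (Ne.symm hx1) (Ne.symm hx1), sub_self, abs_zero, Nat.ceil_zero] at hx3
      omega
    · choose f hf using hsurj
      set r := |((a : SL(2, ℝ))⁻¹ * (b : SL(2, ℝ))) 1 0| with hr
      set ρ : Cusp Γ → ℝ := fun x => rr ((a : SL(2, ℝ))⁻¹ * (f x : SL(2, ℝ))) with hρ
      have hr1 : 1 ≤ r := hc1 a b hab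
      -- the basic facts
      have key : ∀ x, x ≠ mkC a → x ≠ mkC b → 1 < dd Γ x (mkC a) (mkC b) →
          |((a : SL(2, ℝ))⁻¹ * (f x : SL(2, ℝ))) 1 0| < r ∧
          |rr ((a : SL(2, ℝ))⁻¹ * b) - ρ x| ≤ 1 := by
        intro x hx1 hx2 hx3
        have e := hf x
        set c := f x with hc
        rw [← e] at hx1 hx2 hx3
        rw [hB c a b (Ne.symm hx1) (Ne.symm hx2)] at hx3
        have h1 : 1 < |rr ((c : SL(2, ℝ))⁻¹ * b) - rr ((c : SL(2, ℝ))⁻¹ * a)| := by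
          have := Nat.lt_ceil.1 hx3
          exact_mod_cast this
        have h2 := hpf a c b hx1 hab (Ne.symm hx2)
        have h3 := hdf a c b hx1 hab (Ne.symm hx2)
        have h4 := hc1 a c hx1
        set s := |((a : SL(2, ℝ))⁻¹ * (c : SL(2, ℝ))) 1 0| with hs
        have h5 : 0 < s := by linarith
        have h6 : 0 < r := by linarith
        have h7 : |rr ((a : SL(2, ℝ))⁻¹ * b) - rr ((a : SL(2, ℝ))⁻¹ * c)| < 1 / s ^ 2 := by
          rw [← sq_abs, ← hs] at h2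
          rw [← h2]
          have h8 : 0 < |rr ((a : SL(2, ℝ))⁻¹ * b) - rr ((a : SL(2, ℝ))⁻¹ * c)| :=
            lt_of_lt_of_le (by positivity) h3
          nlinarith
        refine ⟨?_, ?_⟩
        · have h8 : 1 / (s * r) < 1 / s ^ 2 := lt_of_le_of_lt h3 h7
          rw [div_lt_div_iff₀ (by positivity) (by positivity)] at h8
          nlinarith
        · have h8 : 1 / s ^ 2 ≤ 1 := by
            rw [div_le_one (by positivity)]
            nlinarith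
          exact h7.le.trans h8
      refine Set.Finite.of_injOn (f := fun x => ⌊r ^ 2 * ρ x⌋)
        (t := Set.Icc ⌊r ^ 2 * (rr ((a : SL(2, ℝ))⁻¹ * b) - 1)⌋
          ⌊r ^ 2 * (rr ((a : SL(2, ℝ))⁻¹ * b) + 1)⌋) ?_ ?_ (Set.finite_Icc _ _)
      · rintro x ⟨hx1, hx2, hx3⟩
        have h1 := (key x hx1 hx2 hx3).2
        rw [abs_le] at h1
        refine ⟨Int.floor_le_floor ?_, Int.floor_le_floor ?_⟩
        · exact mul_le_mul_of_nonneg_left (by linarith) (by positivity)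
        · exact mul_le_mul_of_nonneg_left (by linarith) (by positivity)
      · rintro x ⟨hx1, hx2, hx3⟩ x' ⟨hx1', hx2', hx3'⟩ he
        by_contra hne
        have h1 := (key x hx1 hx2 hx3).1
        have h2 := (key x' hx1' hx2' hx3').1
        have h3 := hdf a (f x) (f x') (by rw [hf]; exact hx1) (by rw [hf]; exact hx1')
          (by rw [hf, hf]; exact Ne.symm hne)
        have h4 := hc1 a (f x) (by rw [hf]; exact hx1)
        have h5 := hc1 a (f x') (by rw [hf]; exact hx1')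
        have h6 := Int.abs_sub_lt_one_of_floor_eq_floor he.symm
        rw [← mul_sub, abs_mul, abs_of_pos (by positivity)] at h6
        set s := |((a : SL(2, ℝ))⁻¹ * (f x : SL(2, ℝ))) 1 0| with hs
        set s' := |((a : SL(2, ℝ))⁻¹ * (f x' : SL(2, ℝ))) 1 0| with hs'
        have h7 : 1 / r ^ 2 < 1 / (s * s') := by
          rw [div_lt_div_iff₀ (by positivity) (by positivity)]
          nlinarith
        have h8 : 1 / r ^ 2 < |ρ x' - ρ x| := lt_of_lt_of_le h7 h3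
        rw [div_lt_iff₀ (by positivity)] at h8
        nlinarith

end Pool.Agent.Helper8.PQ
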